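import Pool.Agent.H93.DE.Defs
import Pool.Agent.H93.EB.Defs

/-!
# Lines of the sign function (MP_c59857_nt, stage 1): statement
-/

set_option autoImplicit false

namespace Pool.Agent.H3.LN

open Finset Pool.Agent.H6.N4D Pool.Agent.H93.EB

/-- the indicator of a property of the line h -> lam (z + q h) -/
noncomputable def ld (lam : ℕ → ℝ) (Bd : (ℕ → ℝ) → Prop) (q z : ℕ) : ℝ :=
  ind (Bd (fun h => lam (z + q * h)))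

/-- LIN. On all octaves of primes but few, the lines are not worse than the windows. -/
def T_LIN : Prop := ∀ ε : ℝ, 0 < ε → ∀ S : ℕ, 1 ≤ S → ∃ (C c₁ : ℝ) (m₁ X₀ : ℕ), 0 < c₁ ∧
  ∀ X : ℕ, X₀ ≤ X → ∀ N : ℕ, (2 : ℝ) ^ N ≤ c₁ * Real.log X →
  ∀ (lam : ℕ → ℝ) (Bd : (ℕ → ℝ) → Prop), Lio lam →
    (∀ w w' : ℕ → ℝ, (∀ h < S, w h = w' h) → (Bd w ↔ Bd w')) →
    (∀ w : ℕ → ℝ, Bd w ↔ Bd (fun h => - w h)) →
    ∃ a : ℕ → ℝ, (∀ m, 0 ≤ a m) ∧ ∑ m ∈ Ico m₁ N, a m / m ≤ C ∧ ∀ m ∈ Ico m₁ N,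
      (∑ q ∈ Pool.Agent.H93.DE.oct m, lg X (ld lam Bd q)) / (Pool.Agent.H93.DE.oct m).card ≤
        lg X (ld lam Bd 1) + (ε + a m) * Real.log X

end Pool.Agent.H3.LN
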