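import Pool.Agent.H3.LN.Defs
import Pool.Agent.H93.DE.Dec2
import Pool.Agent.H93.EB.Basic

/-!
# Lines of the sign function (MP_c59857_nt, stage 1): proof
-/

set_option autoImplicit false

namespace Pool.Agent.H3.LN

open Finset Pool.Agent.H6.N4D Pool.Agent.H93.EB

lemma ld_nonneg (lam : ℕ → ℝ) (Bd : (ℕ → ℝ) → Prop) (q z : ℕ) : 0 ≤ ld lam Bd q z := by
  unfold ld ind
  split_ifs <;> norm_num

lemma ld_le_one (lam : ℕ → ℝ) (Bd : (ℕ → ℝ) → Prop) (q z : ℕ) : ld lam Bd q z ≤ 1 := by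
  unfold ld ind
  split_ifs <;> norm_num

/-- the field of signs -/
noncomputable def cc (lam : ℕ → ℝ) (n : ℕ) : Fin 2 := if lam n = 1 then 1 else 0

/-- the value of a word -/
noncomputable def vl {L : ℕ} (w : Fin L → Fin 2 × Fin 1) (t : ℕ) : ℝ :=
  if h : t < L then (if (w ⟨t, h⟩).1 = 1 then 1 else -1) else 0

/-- the test -/
noncomputable def GG (K : ℕ) (Bd : (ℕ → ℝ) → Prop) (m : ℕ) (_ : Fin (2 ^ (0 * m))) (p j : ℕ)
    (w : Fin (2 * K * 2 ^ m) → Fin 2 × Fin 1) : ℝ :=
  ind (Bd (fun h => vl w (j + p * h)))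

lemma vl_eq {lam : ℕ → ℝ} (hl : ∀ n, lam n = 1 ∨ lam n = -1) (L n t : ℕ) (ht : t < L) :
    vl (fun t : Fin L => Pool.Agent.H93.DE.fld 1 (cc lam) (n + (t : ℕ))) t = lam (n + t) := by
  unfold vl
  rw [dif_pos ht]
  unfold Pool.Agent.H93.DE.fld cc
  simp only [Nat.div_one]
  rcases hl (n + t) with h | h
  · simp [h]
  · rw [h]
    norm_num

lemma GG_eq {lam : ℕ → ℝ} (hl : ∀ n, lam n = 1 ∨ lam n = -1) {S : ℕ} (hS : 1 ≤ S)
    {Bd : (ℕ → ℝ) → Prop}
    (hB : ∀ w w' : ℕ → ℝ, (∀ h < S, w h = w' h) → (Bd w ↔ Bd w'))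
    (m n p j : ℕ) (i : Fin (2 ^ (0 * m))) (hp : p ∈ Pool.Agent.H93.DE.oct m)
    (hj : j < 2 * S * 2 ^ m) :
    GG (2 * S) Bd m i p j (fun t => Pool.Agent.H93.DE.fld 1 (cc lam) (n + (t : ℕ))) =
      ld lam Bd p (n + j) := by
  unfold GG ld
  have h1 : Bd (fun h => vl (fun t : Fin (2 * (2 * S) * 2 ^ m) =>
      Pool.Agent.H93.DE.fld 1 (cc lam) (n + (t : ℕ))) (j + p * h)) ↔
      Bd (fun h => lam (n + j + p * h)) := by
    apply hB
    intro h hh
    have hp2 : p ≤ 2 ^ (m + 1) := by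
      unfold Pool.Agent.H93.DE.oct at hp
      rw [mem_filter, mem_Ioc] at hp
      exact hp.1.2
    have h2 : j + p * h < 2 * (2 * S) * 2 ^ m := by
      have h3 : p * h ≤ 2 ^ (m + 1) * (S - 1) := Nat.mul_le_mul hp2 (by omega)
      have h4 : 2 ^ (m + 1) * (S - 1) ≤ 2 ^ (m + 1) * S := Nat.mul_le_mul_left _ (by omega)
      have h5 : 2 ^ (m + 1) * S = 2 * S * 2 ^ m := by rw [pow_succ]; ring
      have h6 : 2 * (2 * S) * 2 ^ m = 2 * S * 2 ^ m + 2 * S * 2 ^ m := by ring
      omega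
    rw [vl_eq hl _ _ _ h2, add_assoc]
  unfold ind
  by_cases h : Bd (fun h => lam (n + j + p * h))
  · rw [if_pos h, if_pos (h1.mpr h)]
  · rw [if_neg h, if_neg (fun h' => h (h1.mp h'))]

/-- the dilation -/
lemma ld_mul {lam : ℕ → ℝ} (hL : Lio lam) {Bd : (ℕ → ℝ) → Prop}
    (hneg : ∀ w : ℕ → ℝ, Bd w ↔ Bd (fun h => - w h)) {p y : ℕ} (hp : p.Prime) (hy : 1 ≤ y) :
    ld lam Bd p (p * y) = ld lam Bd 1 y := by
  unfold ld
  have h1 : (fun h => lam (p * y + p * h)) = fun h => - lam (y + 1 * h) := by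
    funext h
    rw [← mul_add, one_mul, hL.pr p (y + h) hp (by omega)]
  rw [h1]
  unfold ind
  by_cases h : Bd (fun h => lam (y + 1 * h))
  · rw [if_pos h, if_pos ((hneg _).mp h)]
  · rw [if_neg h, if_neg (fun h' => h ((hneg _).mpr h'))]

/-- the multiples of p -/
lemma mult_le {lam : ℕ → ℝ} (hL : Lio lam) {Bd : (ℕ → ℝ) → Prop}
    (hneg : ∀ w : ℕ → ℝ, Bd w ↔ Bd (fun h => - w h)) {p X A B : ℕ} (hp : p.Prime)
    (hB : B ≤ p * X) :
    ∑ n ∈ Ioc A B, (1 : ℝ) / n * ((if p ∣ n then (p : ℝ) else 0) * ld lam Bd p n) ≤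
      lg X (ld lam Bd 1) := by
  have hp0 : 0 < p := hp.pos
  have hpr : (0 : ℝ) < p := by exact_mod_cast hp0
  calc ∑ n ∈ Ioc A B, (1 : ℝ) / n * ((if p ∣ n then (p : ℝ) else 0) * ld lam Bd p n)
      = ∑ n ∈ (Ioc A B).filter (fun n => p ∣ n), (1 : ℝ) / n * (p * ld lam Bd p n) := by
        rw [sum_filter]
        refine sum_congr rfl fun n _ => ?_
        split_ifs <;> simp
    _ ≤ ∑ n ∈ (Icc 1 X).image (fun y => p * y), (1 : ℝ) / n * (p * ld lam Bd p n) := by
        apply sum_le_sum_of_subset_of_nonneg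
        · intro n hn
          rw [mem_filter, mem_Ioc] at hn
          obtain ⟨⟨h1, h2⟩, y, hy⟩ := hn
          rw [mem_image]
          refine ⟨y, ?_, hy.symm⟩
          rw [mem_Icc]
          constructor
          · rcases Nat.eq_zero_or_pos y with h | h
            · subst h; simp at hy; omega
            · exact h
          · have : p * y ≤ p * X := by rw [← hy]; exact h2.trans hB
            exact Nat.le_of_mul_le_mul_left this hp0
        · intro n _ _
          have := ld_nonneg lam Bd p n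
          positivity
    _ = ∑ y ∈ Icc 1 X, (1 : ℝ) / ((p * y : ℕ) : ℝ) * (p * ld lam Bd p (p * y)) := by
        rw [sum_image]
        intro x _ y _ hxy
        exact Nat.eq_of_mul_eq_mul_left hp0 hxy
    _ = lg X (ld lam Bd 1) := by
        unfold lg
        refine sum_congr rfl fun y hy => ?_
        rw [mem_Icc] at hy
        rw [ld_mul hL hneg hp hy.1]
        have hy0 : (0 : ℝ) < y := by exact_mod_cast hy.1
        push_cast
        field_simp

/-- the left side for one prime and one shift -/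
lemma shift_lower (X N₀ j J : ℕ) (f : ℕ → ℝ) (hf : ∀ n, 0 ≤ f n ∧ f n ≤ 1) (hj : j ≤ J) :
    lg X f - hs (N₀ + J) ≤ ∑ n ∈ Ioc N₀ X, (1 : ℝ) / n * f (n + j) := by
  have h1 : lg X f ≤ hs (N₀ + J) + ∑ n ∈ Ioc (N₀ + J) X, f n / n := by
    unfold lg hs
    have hsub : Icc 1 X ⊆ Icc 1 (N₀ + J) ∪ Ioc (N₀ + J) X := by
      intro n hn
      rw [mem_Icc] at hn
      rw [mem_union, mem_Icc, mem_Ioc]
      omega
    calc ∑ n ∈ Icc 1 X, f n / n ≤ ∑ n ∈ Icc 1 (N₀ + J) ∪ Ioc (N₀ + J) X, f n / n := by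
          apply sum_le_sum_of_subset_of_nonneg hsub
          intro n _ _
          exact div_nonneg (hf n).1 (by positivity)
      _ ≤ ∑ n ∈ Icc 1 (N₀ + J), f n / n + ∑ n ∈ Ioc (N₀ + J) X, f n / n := by
          rw [← sum_union_inter]
          have : 0 ≤ ∑ n ∈ Icc 1 (N₀ + J) ∩ Ioc (N₀ + J) X, f n / (n : ℝ) :=
            sum_nonneg fun n _ => div_nonneg (hf n).1 (by positivity)
          linarith
      _ ≤ ∑ n ∈ Icc 1 (N₀ + J), (1 : ℝ) / n + ∑ n ∈ Ioc (N₀ + J) X, f n / n := by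
          gcongr with n _
          exact (hf n).2
  have h2 : ∑ n ∈ Ioc (N₀ + J) X, f n / n ≤ ∑ n ∈ Ioc N₀ X, (1 : ℝ) / n * f (n + j) := by
    calc ∑ n ∈ Ioc (N₀ + J) X, f n / n
        ≤ ∑ n ∈ (Ioc N₀ X).image (fun n => n + j), f n / n := by
          apply sum_le_sum_of_subset_of_nonneg
          · intro n hn
            rw [mem_Ioc] at hn
            rw [mem_image]
            refine ⟨n - j, ?_, by omega⟩
            rw [mem_Ioc]
            omega
          · intro n _ _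
            exact div_nonneg (hf n).1 (by positivity)
      _ = ∑ n ∈ Ioc N₀ X, f (n + j) / ((n + j : ℕ) : ℝ) := by
          rw [sum_image]
          intro x _ y _ hxy
          simpa using hxy
      _ ≤ ∑ n ∈ Ioc N₀ X, (1 : ℝ) / n * f (n + j) := by
          refine sum_le_sum fun n hn => ?_
          rw [mem_Ioc] at hn
          have hn0 : (0 : ℝ) < n := by
            have : 0 < n := by omega
            exact_mod_cast this
          rw [div_mul_eq_mul_div, one_mul]
          apply div_le_div_of_nonneg_left (hf _).1 hn0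
          push_cast
          have : (0 : ℝ) ≤ j := by positivity
          linarith
  linarith

/-- the right side for one prime and one shift -/
lemma shift_upper {lam : ℕ → ℝ} (hL : Lio lam) {Bd : (ℕ → ℝ) → Prop}
    (hneg : ∀ w : ℕ → ℝ, Bd w ↔ Bd (fun h => - w h)) {p X N₀ j J : ℕ} (hp : p.Prime)
    (hj : j ≤ J) (hJX : J ≤ X) (hN : 0 < N₀) :
    ∑ n ∈ Ioc N₀ X, (1 : ℝ) / n * ((if p ∣ n + j then (p : ℝ) else 0) * ld lam Bd p (n + j)) ≤
      (1 + (J : ℝ) / N₀) * lg X (ld lam Bd 1) := by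
  have hN' : (0 : ℝ) < N₀ := by exact_mod_cast hN
  set F : ℕ → ℝ := fun n => (if p ∣ n then (p : ℝ) else 0) * ld lam Bd p n with hF
  have hF0 : ∀ n, 0 ≤ F n := by
    intro n
    simp only [hF]
    have := ld_nonneg lam Bd p n
    split_ifs
    · positivity
    · simp
  have hgoal : ∑ n ∈ Ioc N₀ X, (1 : ℝ) / n *
      ((if p ∣ n + j then (p : ℝ) else 0) * ld lam Bd p (n + j)) =
      ∑ n ∈ Ioc N₀ X, (1 : ℝ) / n * F (n + j) := rfl
  rw [hgoal]
  clear_value F
  calc ∑ n ∈ Ioc N₀ X, (1 : ℝ) / n * F (n + j)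
      ≤ ∑ n ∈ Ioc N₀ X, (1 + (J : ℝ) / N₀) * ((1 : ℝ) / ((n + j : ℕ) : ℝ) * F (n + j)) := by
        refine sum_le_sum fun n hn => ?_
        rw [mem_Ioc] at hn
        have hn0 : (0 : ℝ) < n := by
          have : 0 < n := by omega
          exact_mod_cast this
        have hnN : (N₀ : ℝ) ≤ n := by exact_mod_cast hn.1.le
        rw [← mul_assoc]
        apply mul_le_mul_of_nonneg_right _ (hF0 _)
        push_cast
        rw [mul_one_div, div_le_div_iff₀ hn0 (by positivity)]
        have hjr : (j : ℝ) ≤ J := by exact_mod_cast hj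
        have h1 : (J : ℝ) ≤ J / N₀ * n := by
          rw [div_mul_eq_mul_div, le_div_iff₀ hN']
          exact mul_le_mul_of_nonneg_left hnN (by positivity)
        nlinarith
    _ = (1 + (J : ℝ) / N₀) * ∑ n ∈ Ioc N₀ X, (1 : ℝ) / ((n + j : ℕ) : ℝ) * F (n + j) := by
        rw [mul_sum]
    _ ≤ (1 + (J : ℝ) / N₀) * lg X (ld lam Bd 1) := by
        apply mul_le_mul_of_nonneg_left _ (by positivity)
        calc ∑ n ∈ Ioc N₀ X, (1 : ℝ) / ((n + j : ℕ) : ℝ) * F (n + j)
            = ∑ n ∈ (Ioc N₀ X).image (fun n => n + j), (1 : ℝ) / n * F n := by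
              rw [sum_image]
              intro x _ y _ hxy
              simpa using hxy
          _ ≤ ∑ n ∈ Ioc (N₀ + j) (X + j), (1 : ℝ) / n * F n := by
              apply sum_le_sum_of_subset_of_nonneg
              · intro n hn
                rw [mem_image] at hn
                obtain ⟨x, hx, rfl⟩ := hn
                rw [mem_Ioc] at hx ⊢
                omega
              · intro n _ _
                have := hF0 n
                positivity
          _ ≤ lg X (ld lam Bd 1) := by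
              rw [hF]
              apply mult_le hL hneg hp
              have := hp.two_le
              nlinarith

lemma oct_pos {m p : ℕ} (hp : p ∈ Pool.Agent.H93.DE.oct m) : p.Prime := by
  unfold Pool.Agent.H93.DE.oct at hp
  exact (mem_filter.mp hp).2

theorem lin : T_LIN := by
  classical
  intro ε hε S hS
  set ε₁ : ℝ := ε / 8 with hε₁
  have hε₁0 : 0 < ε₁ := by positivity
  obtain ⟨C, c₁, m₁, X₀, hC, hc₁, hmain⟩ :=
    Pool.Agent.H93.DE.dec2 ε₁ (2 * S) 0 hε₁0 (by omega) 1 2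
  obtain ⟨n₀, hn₀⟩ := exists_nat_ge (1 / ε₁)
  have hn₀pos : 0 < n₀ := by
    have : (0 : ℝ) < n₀ := lt_of_lt_of_le (by positivity) hn₀
    exact_mod_cast this
  -- constants for the size of X
  set Q : ℝ := Real.log (2 * S * (n₀ + 1)) with hQ
  have hlogtend : Filter.Tendsto (fun X : ℕ => Real.log (X : ℝ)) Filter.atTop Filter.atTop :=
    Real.tendsto_log_atTop.comp tendsto_natCast_atTop_atTop
  have hll : Filter.Tendsto (fun x : ℝ => Real.log x / x) Filter.atTop (nhds 0) := by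
    have := Real.isLittleO_log_id_atTop.tendsto_div_nhds_zero
    simpa using this
  have hev : ∀ᶠ X : ℕ in Filter.atTop,
      1 + (Q + (|Real.log c₁| + Real.log (Real.log X))) ≤ ε₁ * Real.log X ∧
      1 ≤ Real.log X ∧ 2 * S * (c₁ * Real.log X) ≤ X := by
    have h1 : ∀ᶠ x : ℝ in Filter.atTop, 1 + (Q + (|Real.log c₁| + Real.log x)) ≤ ε₁ * x := by
      have h2 : ∀ᶠ x : ℝ in Filter.atTop, Real.log x / x < ε₁ / 2 :=
        hll.eventually (gt_mem_nhds (by positivity))
      filter_upwards [h2, Filter.eventually_gt_atTop 0,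
        Filter.eventually_ge_atTop (2 * (1 + Q + |Real.log c₁|) / ε₁)] with x hx hx0 hx1
      rw [div_lt_iff₀ hx0] at hx
      rw [div_le_iff₀ hε₁0] at hx1
      nlinarith
    have h3 : ∀ᶠ x : ℝ in Filter.atTop, 2 * S * (c₁ * x) ≤ Real.exp x := by
      have h4 : Filter.Tendsto (fun x : ℝ => Real.exp x / x ^ 1) Filter.atTop Filter.atTop :=
        Real.tendsto_exp_div_pow_atTop 1
      filter_upwards [h4.eventually_ge_atTop (2 * S * c₁), Filter.eventually_gt_atTop 0]
        with x hx hx0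
      rw [pow_one, le_div_iff₀ hx0] at hx
      linarith
    have h5 := hlogtend.eventually h1
    have h6 := hlogtend.eventually h3
    filter_upwards [h5, h6, hlogtend.eventually_ge_atTop 1, Filter.eventually_gt_atTop 0]
      with X hX1 hX2 hX3 hX4
    refine ⟨hX1, hX3, ?_⟩
    rwa [Real.exp_log (by exact_mod_cast hX4)] at hX2
  obtain ⟨X₁, hX₁⟩ := Filter.eventually_atTop.mp hev
  refine ⟨C, c₁, m₁, max X₀ X₁, hc₁, ?_⟩
  intro X hX N hN lam Bd hL hB hneg
  obtain ⟨hX1, hX2, hX3⟩ := hX₁ X (le_trans (le_max_right _ _) hX)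
  obtain ⟨a, ha0, haC, ham⟩ := hmain X (le_trans (le_max_left _ _) hX) N hN (cc lam)
    (fun m => GG (2 * S) Bd m) (by
      intro m i p j w
      unfold GG ind
      split_ifs <;> norm_num)
  refine ⟨a, ha0, haC, ?_⟩
  intro m hm
  have hm' := mem_Ico.mp hm
  have hbad := ham m hm
  set J : ℕ := 2 * S * 2 ^ m with hJ
  set N₀ : ℕ := J * n₀ with hN₀
  have hJpos : 0 < J := by positivity
  have hN₀pos : 0 < N₀ := Nat.mul_pos hJpos hn₀pos
  set c : ℕ := (Pool.Agent.H93.DE.oct m).card with hc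
  have hR0 : 0 ≤ lg X (ld lam Bd 1) := lg_nonneg fun n _ => ld_nonneg lam Bd 1 n
  have hlog0 : 0 ≤ Real.log X := by linarith
  rcases Nat.eq_zero_or_pos c with hc0 | hcpos
  · rw [hc0, Nat.cast_zero, div_zero]
    have := ha0 m
    positivity
  have hcr : (0 : ℝ) < c := by exact_mod_cast hcpos
  have hJr : (0 : ℝ) < J := by exact_mod_cast hJpos
  have hNr : (0 : ℝ) < N₀ := by exact_mod_cast hN₀pos
  have h2m : (2 : ℝ) ^ m ≤ c₁ * Real.log X :=
    le_trans (pow_le_pow_right₀ (by norm_num) hm'.2.le) hN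
  have hJX : J ≤ X := by
    have : (J : ℝ) ≤ X := by
      calc (J : ℝ) = 2 * S * 2 ^ m := by rw [hJ]; push_cast; ring
        _ ≤ 2 * S * (c₁ * Real.log X) := mul_le_mul_of_nonneg_left h2m (by positivity)
        _ ≤ X := hX3
    exact_mod_cast this
  -- the harmonic sum
  have hhs : hs (N₀ + J) ≤ ε₁ * Real.log X := by
    refine (hs_le _).trans (le_trans ?_ hX1)
    have h1 : ((N₀ + J : ℕ) : ℝ) = 2 * S * (n₀ + 1) * 2 ^ m := by
      rw [hN₀, hJ]; push_cast; ring
    have hS' : (0 : ℝ) < S := by exact_mod_cast hS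
    rw [h1, Real.log_mul (by positivity) (by positivity)]
    have h2 : Real.log ((2 : ℝ) ^ m) ≤ Real.log c₁ + Real.log (Real.log X) := by
      rw [← Real.log_mul hc₁.ne' (by linarith)]
      exact Real.log_le_log (by positivity) h2m
    have h3 := le_abs_self (Real.log c₁)
    rw [hQ]
    linarith
  -- the statistic
  set st : ℕ → ℝ := fun n => Pool.Agent.H93.DE.stat (2 * S) m (GG (2 * S) Bd m 0) n
    (fun t => Pool.Agent.H93.DE.fld 1 (cc lam) (n + (t : ℕ))) with hst
  have hst_eq : ∀ n, st n = (∑ p ∈ Pool.Agent.H93.DE.oct m, ∑ j ∈ range J,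
      ((if p ∣ n + j then (p : ℝ) else 0) - 1) * ld lam Bd p (n + j)) / (c * J) := by
    intro n
    simp only [hst]
    unfold Pool.Agent.H93.DE.stat
    congr 1
    · refine sum_congr rfl fun p hp => sum_congr rfl fun j hj => ?_
      rw [mem_range] at hj
      rw [GG_eq hL.pm hS hB m n p j 0 hp hj]
    · rw [hJ, hc]; push_cast; ring
  have hst1 : ∀ n, - st n ≤ 1 := by
    intro n
    rw [hst_eq, ← neg_div, div_le_one (mul_pos hcr hJr), ← sum_neg_distrib]
    calc ∑ p ∈ Pool.Agent.H93.DE.oct m, -∑ j ∈ range J,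
          ((if p ∣ n + j then (p : ℝ) else 0) - 1) * ld lam Bd p (n + j)
        ≤ ∑ p ∈ Pool.Agent.H93.DE.oct m, (J : ℝ) := by
          refine sum_le_sum fun p _ => ?_
          rw [← sum_neg_distrib]
          calc ∑ j ∈ range J, -(((if p ∣ n + j then (p : ℝ) else 0) - 1) * ld lam Bd p (n + j))
              ≤ ∑ j ∈ range J, (1 : ℝ) := by
                refine sum_le_sum fun j _ => ?_
                have h1 := ld_nonneg lam Bd p (n + j)
                have h2 := ld_le_one lam Bd p (n + j)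
                have h3 : (0 : ℝ) ≤ (if p ∣ n + j then (p : ℝ) else 0) := by
                  split_ifs <;> positivity
                nlinarith
            _ = J := by rw [sum_const, card_range, nsmul_eq_mul, mul_one]
      _ = c * J := by rw [sum_const, nsmul_eq_mul]
  have hbadle : ∑ n ∈ Ioc N₀ X, (1 : ℝ) / n * (- st n) ≤
      ε₁ * (1 + Real.log X) + (ε₁ + a m) * Real.log X := by
    have hsub : Ioc N₀ X ⊆ Icc 1 X := by
      intro n hn
      rw [mem_Ioc] at hn
      rw [mem_Icc]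
      omega
    calc ∑ n ∈ Ioc N₀ X, (1 : ℝ) / n * (- st n)
        ≤ ∑ n ∈ Ioc N₀ X, ((1 : ℝ) / n * ε₁ + (1 : ℝ) / n *
          (if Pool.Agent.H93.DE.Bad 1 (cc lam) ε₁ (2 * S) 0 m (GG (2 * S) Bd m) n then
            (1 : ℝ) else 0)) := by
          refine sum_le_sum fun n _ => ?_
          rw [← mul_add]
          apply mul_le_mul_of_nonneg_left _ (by positivity)
          split_ifs with hb
          · have := hst1 n
            linarith
          · have h1 : |st n| ≤ ε₁ := by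
              by_contra hcon
              rw [not_le] at hcon
              exact hb ⟨0, hcon⟩
            have h2 := (abs_le.mp h1).1
            linarith
      _ ≤ ∑ n ∈ Icc 1 X, ((1 : ℝ) / n * ε₁ + (1 : ℝ) / n *
          (if Pool.Agent.H93.DE.Bad 1 (cc lam) ε₁ (2 * S) 0 m (GG (2 * S) Bd m) n then
            (1 : ℝ) else 0)) := by
          apply sum_le_sum_of_subset_of_nonneg hsub
          intro n _ _
          split_ifs <;> positivity
      _ = ε₁ * lg X (fun _ => 1) + ∑ n ∈ (Icc 1 X).filter (fun n =>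
          Pool.Agent.H93.DE.Bad 1 (cc lam) ε₁ (2 * S) 0 m (GG (2 * S) Bd m) n), (1 : ℝ) / n := by
          rw [sum_add_distrib, ← sum_mul, mul_comm _ ε₁]
          congr 1
          rw [sum_filter]
          refine sum_congr rfl fun n _ => ?_
          split_ifs <;> simp
      _ ≤ ε₁ * (1 + Real.log X) + (ε₁ + a m) * Real.log X := by
          apply add_le_add
          · exact mul_le_mul_of_nonneg_left (lg_one_le X) hε₁0.le
          · convert hbad
  -- exchange of the sums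
  have hswap : ∑ n ∈ Ioc N₀ X, (1 : ℝ) / n * (- st n) =
      (∑ p ∈ Pool.Agent.H93.DE.oct m, ∑ j ∈ range J,
        (∑ n ∈ Ioc N₀ X, (1 : ℝ) / n * ld lam Bd p (n + j) -
          ∑ n ∈ Ioc N₀ X, (1 : ℝ) / n * ((if p ∣ n + j then (p : ℝ) else 0) *
            ld lam Bd p (n + j)))) / (c * J) := by
    have h1 : ∀ n, (1 : ℝ) / n * (- st n) = (∑ p ∈ Pool.Agent.H93.DE.oct m, ∑ j ∈ range J,
        ((1 : ℝ) / n * ld lam Bd p (n + j) - (1 : ℝ) / n *
          ((if p ∣ n + j then (p : ℝ) else 0) * ld lam Bd p (n + j)))) / (c * J) := by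
      intro n
      rw [hst_eq, ← neg_div, mul_div_assoc', ← sum_neg_distrib, mul_sum]
      congr 1
      refine sum_congr rfl fun p _ => ?_
      rw [← sum_neg_distrib, mul_sum]
      refine sum_congr rfl fun j _ => ?_
      ring
    rw [sum_congr rfl fun n _ => h1 n, ← sum_div]
    congr 1
    rw [sum_comm]
    refine sum_congr rfl fun p _ => ?_
    rw [sum_comm]
    refine sum_congr rfl fun j _ => ?_
    rw [sum_sub_distrib]
  have hlow : (∑ p ∈ Pool.Agent.H93.DE.oct m, lg X (ld lam Bd p)) / c - hs (N₀ + J) -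
      (1 + (J : ℝ) / N₀) * lg X (ld lam Bd 1) ≤ ∑ n ∈ Ioc N₀ X, (1 : ℝ) / n * (- st n) := by
    rw [hswap, le_div_iff₀ (mul_pos hcr hJr)]
    have h1 : ((∑ p ∈ Pool.Agent.H93.DE.oct m, lg X (ld lam Bd p)) / c - hs (N₀ + J) -
        (1 + (J : ℝ) / N₀) * lg X (ld lam Bd 1)) * (c * J) =
        ∑ p ∈ Pool.Agent.H93.DE.oct m, ∑ j ∈ range J, ((lg X (ld lam Bd p) - hs (N₀ + J)) -
          (1 + (J : ℝ) / N₀) * lg X (ld lam Bd 1)) := by
      have h2 : ∀ p ∈ Pool.Agent.H93.DE.oct m, ∑ j ∈ range J,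
          ((lg X (ld lam Bd p) - hs (N₀ + J)) - (1 + (J : ℝ) / N₀) * lg X (ld lam Bd 1)) =
          J * lg X (ld lam Bd p) - J * (hs (N₀ + J) +
            (1 + (J : ℝ) / N₀) * lg X (ld lam Bd 1)) := by
        intro p _
        rw [sum_const, card_range, nsmul_eq_mul]
        ring
      rw [sum_congr rfl h2, sum_sub_distrib, ← mul_sum, sum_const, nsmul_eq_mul, ← hc]
      field_simp
      ring
    rw [h1]
    refine sum_le_sum fun p hp => sum_le_sum fun j hj => ?_
    rw [mem_range] at hj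
    have hA := shift_lower X N₀ j J (ld lam Bd p)
      (fun n => ⟨ld_nonneg lam Bd p n, ld_le_one lam Bd p n⟩) hj.le
    have hBb := shift_upper (X := X) (N₀ := N₀) hL hneg (oct_pos hp) hj.le hJX hN₀pos
    linarith
  have hJN : (J : ℝ) / N₀ ≤ ε₁ := by
    rw [hN₀]
    push_cast
    rw [div_mul_eq_div_div, div_self hJr.ne']
    rw [div_le_iff₀ hε₁0] at hn₀
    rw [div_le_iff₀ (by exact_mod_cast hn₀pos)]
    linarith
  have hlg1 : lg X (ld lam Bd 1) ≤ 1 + Real.log X := by
    refine le_trans (lg_mono fun n _ => ld_le_one lam Bd 1 n) (lg_one_le X)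
  have hprod : (J : ℝ) / N₀ * lg X (ld lam Bd 1) ≤ ε₁ * (1 + Real.log X) :=
    mul_le_mul hJN hlg1 hR0 hε₁0.le
  have hfin : (1 + (J : ℝ) / N₀) * lg X (ld lam Bd 1) ≤
      lg X (ld lam Bd 1) + ε₁ * (1 + Real.log X) := by linarith
  have hε8 : ε = 8 * ε₁ := by rw [hε₁]; ring
  rw [hε8]
  nlinarith [mul_nonneg hε₁0.le hlog0]

end Pool.Agent.H3.LN
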